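import Pool.Agent.R573.CL.Two2

/-!
# Copies of the complete 3-graph on four vertices above Turán's number

Let `t n` be the number of edges of Turán's construction without `K_4^(3)`, so `t_3(n, 4) ≥ t n`.
Sixteen lists of 3-graphs on six vertices are given; none of them is induced in Turán's construction.
There are `c > 0` and `n0` such that the following holds for `n ≥ n0`, `1 ≤ q ≤ c n` and every
3-graph `H` on `n` vertices with at least `t n + q` edges, such that for one of the lists no two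
vertices lie together in more than `c n ^ 4` induced copies of its members. `H` has more than `q`
copies of `K_4^(3)`. Moreover every set of edges which meets all copies of `K_4^(3)` has at least `q`
members, and exactly `q` members only if `H` without these edges is Turán's construction.

For `q = 1` this is the assertion of the conjecture of Erdős for `k = 4`. So a counterexample of
large order for `k = 4` has, for each of the sixteen lists, two vertices which lie together in more
than `c n ^ 4` induced copies.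

Outline. If the edges of `E` meet all copies of `K_4^(3)`, then `H` without `E` has no `K_4^(3)`, and
the number of induced copies through two vertices changes by at most `q n ^ 3`. By the exact result
for `K_4^(3)`-free 3-graphs (see MP_ec0960_co.PairLocalExact), `H` without `E` has at most `t n`
edges, with equality only for Turán's construction; there every further triple gives at least
`n / 3` (rounded down) copies of `K_4^(3)`.
-/

set_option autoImplicit false
set_option maxRecDepth 100000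
set_option maxHeartbeats 4000000
open Finset
open scoped Classical

namespace Pool.Agent.Results.MP_b37025_co.ExcessCopies

/-- The set `S` is a copy of `K_4^(3)` in the 3-graph `H`: it has four elements, and its four triples
are edges. -/
def Clique {n : ℕ} (H : Finset (Finset (Fin n))) (S : Finset (Fin n)) : Prop :=
  S.card = 4 ∧ ∀ s ⊆ S, s.card = 3 → s ∈ H

/-- The number of copies of `K_4^(3)`. -/
noncomputable def cliques {n : ℕ} (H : Finset (Finset (Fin n))) : ℕ :=
  ((univ : Finset (Finset (Fin n))).filter fun S => Clique H S).card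

/-- The set `S` of vertices induces a copy of the 3-graph `F` in `H`: there is a bijection from the
vertices of `F` to `S` that maps edges to edges and non-edges to non-edges. -/
def Induces {n : ℕ} (F : Finset (Finset (Fin 6))) (H : Finset (Finset (Fin n)))
    (S : Finset (Fin n)) : Prop :=
  ∃ f : Fin 6 → Fin n, Function.Injective f ∧ univ.image f = S ∧
    ∀ t : Finset (Fin 6), t.card = 3 → (t.image f ∈ H ↔ t ∈ F)

/-- The number of sets of vertices of `H` which contain both `x` and `y` and induce a copy of a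
member of the list `Fs` of 3-graphs on six vertices. -/
noncomputable def pairCopies {n : ℕ} (Fs : List (Finset (Finset (Fin 6))))
    (H : Finset (Finset (Fin n))) (x y : Fin n) : ℕ :=
  ((univ : Finset (Finset (Fin n))).filter fun S =>
    (x ∈ S ∧ y ∈ S) ∧ ∃ F ∈ Fs, Induces F H S).card

/-- Turán's construction for the division of the vertices into the parts `g = 0`, `g = 1`, `g = 2`:
the triples that meet all three parts, and the triples with two vertices in one part and one vertex
in the following part, where part 0 follows part 2. -/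
def turan {n : ℕ} (g : Fin n → Fin 3) : Finset (Finset (Fin n)) :=
  ((univ : Finset (Fin n)).powersetCard 3).filter fun t =>
    (∀ p, ∃ i ∈ t, g i = p) ∨
      ∃ p, (t.filter fun i => g i = p).card = 2 ∧ (t.filter fun i => g i = p + 1).card = 1

/-- The sizes of any two of the three parts differ by at most one. -/
def Balanced {n : ℕ} (g : Fin n → Fin 3) : Prop :=
  ∀ p q : Fin 3, ((univ : Finset (Fin n)).filter fun i => g i = p).card ≤
    ((univ : Finset (Fin n)).filter fun i => g i = q).card + 1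

/-- Turán's number, for parts of sizes `n / 3`, `(n + 1) / 3`, `(n + 2) / 3`, rounded down. -/
def t (n : ℕ) : ℕ :=
  n / 3 * ((n + 1) / 3) * ((n + 2) / 3) + (n / 3).choose 2 * ((n + 1) / 3) +
    ((n + 1) / 3).choose 2 * ((n + 2) / 3) + ((n + 2) / 3).choose 2 * (n / 3)

/-- The 3-graph on `0, ..., 5` with non-edges 014 015 023 145 234 235 245 345. -/
def P1 : Finset (Finset (Fin 6)) :=
  {{0, 1, 2}, {0, 1, 3}, {0, 2, 4}, {0, 2, 5}, {0, 3, 4}, {0, 3, 5}, {0, 4, 5}, {1, 2, 3}, {1, 2, 4}, {1, 2, 5}, {1, 3, 4}, {1, 3, 5}}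

/-- The 3-graph on `0, ..., 5` with non-edges 024 025 034 035 123 145 245 345. -/
def P2 : Finset (Finset (Fin 6)) :=
  {{0, 1, 2}, {0, 1, 3}, {0, 1, 4}, {0, 1, 5}, {0, 2, 3}, {0, 4, 5}, {1, 2, 4}, {1, 2, 5}, {1, 3, 4}, {1, 3, 5}, {2, 3, 4}, {2, 3, 5}}

/-- The 3-graph on `0, ..., 5` with non-edges 012 125 134 135 145 234 235 245 345. -/
def P3 : Finset (Finset (Fin 6)) :=
  {{0, 1, 3}, {0, 1, 4}, {0, 1, 5}, {0, 2, 3}, {0, 2, 4}, {0, 2, 5}, {0, 3, 4}, {0, 3, 5}, {0, 4, 5}, {1, 2, 3}, {1, 2, 4}}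

/-- The 3-graph on `0, ..., 5` with non-edges 014 015 024 025 034 035 123 145 245 345. -/
def P4 : Finset (Finset (Fin 6)) :=
  {{0, 1, 2}, {0, 1, 3}, {0, 2, 3}, {0, 4, 5}, {1, 2, 4}, {1, 2, 5}, {1, 3, 4}, {1, 3, 5}, {2, 3, 4}, {2, 3, 5}}

/-- The 3-graph on `0, ..., 5` with non-edges 012 013 145 234 235 245 345. -/
def Q1 : Finset (Finset (Fin 6)) :=
  {{0, 1, 4}, {0, 1, 5}, {0, 2, 3}, {0, 2, 4}, {0, 2, 5}, {0, 3, 4}, {0, 3, 5}, {0, 4, 5}, {1, 2, 3}, {1, 2, 4}, {1, 2, 5}, {1, 3, 4}, {1, 3, 5}}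

/-- The 3-graph on `0, ..., 5` with non-edges 015 023 124 134 235 245 345. -/
def Q2 : Finset (Finset (Fin 6)) :=
  {{0, 1, 2}, {0, 1, 3}, {0, 1, 4}, {0, 2, 4}, {0, 2, 5}, {0, 3, 4}, {0, 3, 5}, {0, 4, 5}, {1, 2, 3}, {1, 2, 5}, {1, 3, 5}, {1, 4, 5}, {2, 3, 4}}

/-- The 3-graph on `0, ..., 5` with non-edges 012 015 025 134 135 145 234 235 245 345. -/
def Q3 : Finset (Finset (Fin 6)) :=
  {{0, 1, 3}, {0, 1, 4}, {0, 2, 3}, {0, 2, 4}, {0, 3, 4}, {0, 3, 5}, {0, 4, 5}, {1, 2, 3}, {1, 2, 4}, {1, 2, 5}}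

/-- The 3-graph on `0, ..., 5` with non-edges 012 034 035 123 145 245 345. -/
def Q4 : Finset (Finset (Fin 6)) :=
  {{0, 1, 3}, {0, 1, 4}, {0, 1, 5}, {0, 2, 3}, {0, 2, 4}, {0, 2, 5}, {0, 4, 5}, {1, 2, 4}, {1, 2, 5}, {1, 3, 4}, {1, 3, 5}, {2, 3, 4}, {2, 3, 5}}

/-- The 3-graph on `0, ..., 5` with non-edges 012 013 014 125 135 145 234 235 245 345. -/
def Q5 : Finset (Finset (Fin 6)) :=
  {{0, 1, 5}, {0, 2, 3}, {0, 2, 4}, {0, 2, 5}, {0, 3, 4}, {0, 3, 5}, {0, 4, 5}, {1, 2, 3}, {1, 2, 4}, {1, 3, 4}}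

/-- The 3-graph on `0, ..., 5` with non-edges 023 024 034 125 135 145 234 235 245 345. -/
def Q6 : Finset (Finset (Fin 6)) :=
  {{0, 1, 2}, {0, 1, 3}, {0, 1, 4}, {0, 1, 5}, {0, 2, 5}, {0, 3, 5}, {0, 4, 5}, {1, 2, 3}, {1, 2, 4}, {1, 3, 4}}

/-- The 3-graph on `0, ..., 5` with non-edges 014 015 024 034 123 145 235 245 345. -/
def R1 : Finset (Finset (Fin 6)) :=
  {{0, 1, 2}, {0, 1, 3}, {0, 2, 3}, {0, 2, 5}, {0, 3, 5}, {0, 4, 5}, {1, 2, 4}, {1, 2, 5}, {1, 3, 4}, {1, 3, 5}, {2, 3, 4}}

/-- The 3-graph on `0, ..., 5` with non-edges 015 024 025 034 035 123 145 245 345. -/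
def R2 : Finset (Finset (Fin 6)) :=
  {{0, 1, 2}, {0, 1, 3}, {0, 1, 4}, {0, 2, 3}, {0, 4, 5}, {1, 2, 4}, {1, 2, 5}, {1, 3, 4}, {1, 3, 5}, {2, 3, 4}, {2, 3, 5}}

/-- The sixteen lists. -/
def lists : List (List (Finset (Finset (Fin 6)))) :=
  [[P1, Q1], [P1, Q2], [Q3, P1], [P1, Q4], [P1, Q5], [P1, Q6], [P2, Q1], [P2, Q2], [P2, Q3],
    [P2, Q4], [P3, Q1], [P3, Q2], [P3, Q3], [P4, Q1], [P4, Q2], [Q5, R1, P4, R2]]

open Pool.Agent.TH773.Turan34 (XA XB XC XD XE XF XG XH XI)
open Pool.Agent.Y878.EX (X96747 X120663 X77054 X119623 X97788 X228027 X78078 X77292 X122742 X77147)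
open Pool.Agent.R573.CL
open Pool.Agent.R573.CL.Mor

theorem eP1 : X96747 = P1 := by decide +kernel
theorem eP2 : X120663 = P2 := by decide +kernel
theorem eP3 : X77054 = P3 := by decide +kernel
theorem eP4 : X119623 = P4 := by decide +kernel
theorem eQ1 : X97788 = Q1 := by decide +kernel
theorem eQ2 : X228027 = Q2 := by decide +kernel
theorem eQ3 : X78078 = Q3 := by decide +kernel
theorem eQ4 : X122742 = Q4 := by decide +kernel
theorem eQ5 : X77292 = Q5 := by decide +kernel
theorem eQ6 : X77147 = Q6 := by decide +kernel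
theorem eR1 : XG = R1 := by decide +kernel
theorem eR2 : XI = R2 := by decide +kernel
theorem aP1 : XA = P1 := by decide +kernel
theorem aP2 : XD = P2 := by decide +kernel
theorem aP4 : XH = P4 := by decide +kernel
theorem aQ1 : XC = Q1 := by decide +kernel
theorem aQ2 : XB = Q2 := by decide +kernel
theorem aQ3 : XE = Q3 := by decide +kernel
theorem aQ5 : XF = Q5 := by decide +kernel

theorem data (L : List (Finset (Finset (Fin 6)))) (hL : L ∈ lists) : Lst L := by
  have f0 : Lst [XA, XB] := lst_fam 0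
  have f1 : Lst [XA, XC] := lst_fam 1
  have f2 : Lst [XD, XB] := lst_fam 2
  have f3 : Lst [XE, XA] := lst_fam 3
  have f4 : Lst [XF, XG, XH, XI] := lst_fam 4
  simp only [lists, List.mem_cons, List.not_mem_nil, or_false] at hL
  rcases hL with rfl | rfl | rfl | rfl | rfl | rfl | rfl | rfl | rfl | rfl | rfl | rfl | rfl | rfl |
    rfl | rfl
  · rw [← aP1, ← aQ1]; exact f1
  · rw [← aP1, ← aQ2]; exact f0
  · rw [← aP1, ← aQ3]; exact f3
  · rw [← eP1, ← eQ4]; exact lst07
  · rw [← eP1, ← eQ5]; exact lst06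
  · rw [← eP1, ← eQ6]; exact lst09
  · rw [← eP2, ← eQ1]; exact lst01
  · rw [← aP2, ← aQ2]; exact f2
  · rw [← eP2, ← eQ3]; exact lst02
  · rw [← eP2, ← eQ4]; exact lst08
  · rw [← eP3, ← eQ1]; exact lst03
  · rw [← eP3, ← eQ2]; exact lst04
  · rw [← eP3, ← eQ3]; exact lst05
  · rw [← eP4, ← eQ1]; exact lst10
  · rw [← eP4, ← eQ2]; exact lst11
  · rw [← aQ5, ← eR1, ← aP4, ← eR2]; exact f4

/-- There are `c > 0` and `n0` such that the following holds for all `n ≥ n0`. (1) Let `H` be a
3-graph on `n` vertices, and let, for one of the sixteen lists, every two distinct vertices lie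
together in at most `c n ^ 4` sets which induce a member of the list. If `1 ≤ q ≤ c n` and `H` has at
least `t n + q` edges, then `H` has at least `q + 1` copies of `K_4^(3)`, and every set `E` of edges
of `H` such that each copy of `K_4^(3)` contains a member of `E` has at least `q` members; if it has
exactly `q` members, then `H` without `E` is Turán's construction with parts of nearly equal sizes.
(2) Turán's construction with parts of nearly equal sizes has `t n` edges and no copy of
`K_4^(3)`. -/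
theorem result : ∃ c : ℝ, 0 < c ∧ ∃ n0 : ℕ, ∀ n, n0 ≤ n →
    (∀ L ∈ lists, ∀ H : Finset (Finset (Fin n)), (∀ e ∈ H, e.card = 3) →
      (∀ x y, x ≠ y → (pairCopies L H x y : ℝ) ≤ c * (n : ℝ) ^ 4) →
      ∀ q : ℕ, 1 ≤ q → (q : ℝ) ≤ c * n → t n + q ≤ H.card →
        q + 1 ≤ cliques H ∧ ∀ E ⊆ H, (∀ S, Clique H S → ∃ e ∈ E, e ⊆ S) →
          q ≤ E.card ∧ (E.card = q → ∃ g : Fin n → Fin 3, Balanced g ∧ H \ E = turan g)) ∧
    (∀ g : Fin n → Fin 3, Balanced g → (∀ e ∈ turan g, e.card = 3) ∧ (turan g).card = t n ∧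
      ∀ S, ¬ Clique (turan g) S) := by
  obtain ⟨c, hc, n0, h⟩ := many_copies lists data
  exact ⟨c, hc, n0, h⟩

end Pool.Agent.Results.MP_b37025_co.ExcessCopies
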